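import Pool.Agent.Helper59.SL.GoalsG

/-! # Project SL (Galois part), packet SGN: the signature. -/

namespace Pool.Agent.Helper34.SLG.SGN

open Pool.Agent.Helper59.SL Pool.Agent.Helper51.SigLeo Pool.Agent.Helper51.SixExp
  Pool.Agent.Helper17.SL NumberField Module

universe u v

theorem real_iff {F : Type u} {N : Type v} [Field F] [Field N] [Algebra F N] [Normal F N]
    (φ φ' : N →+* ℂ) (h : φ'.comp (algebraMap F N) = φ.comp (algebraMap F N)) :
    ComplexEmbedding.conjugate φ' = φ' ↔ ComplexEmbedding.conjugate φ = φ := by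
  obtain ⟨g, rfl⟩ := exists_gal_comp φ φ' h
  rw [← ComplexEmbedding.conjugate_comp]
  constructor
  · intro h1
    ext x
    have h2 := RingHom.congr_fun h1 (g.symm x)
    simpa using h2
  · intro h1
    rw [h1]

theorem thm : S_SGN.{u, v} := by
  intro F N _ _ _ _ _ _ hr hc
  obtain ⟨φ₁, h₁⟩ := exists_real_of_not hc
  obtain ⟨φ₂, h₂⟩ := exists_complex_of_not hr
  have hcplx : ∀ φ : N →+* ℂ, φ.comp (algebraMap F N) = φ₂.comp (algebraMap F N) →
      ComplexEmbedding.conjugate φ ≠ φ := fun φ h h' ↦ h₂ ((real_iff φ₂ φ h).1 h')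
  refine ⟨φ₁.comp (algebraMap F N), φ₂.comp (algebraMap F N), ⟨?_, ?_, hcplx⟩⟩
  · intro h
    exact hcplx φ₁ h h₁
  · intro φ h
    exact (real_iff φ₁ φ h).2 h₁

end Pool.Agent.Helper34.SLG.SGN
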